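import Pool.Agent.Run7.h690.CL.Iface

set_option autoImplicit false

/-!
# Piece `UP` of helper690's project for MP_cc3859_lc : metric ultrapowers and the theorem of Łoś
-/

open Filter Topology

namespace Run7.h255.CL
open Pool.Agent.Run7.h690.CL

/-! ## Limits along ultrafilters -/

section ulim

variable {I : Type} (U : Ultrafilter I)

theorem exists_ulim {g : I → ℝ} {a b : ℝ} (h : ∀ i, g i ∈ Set.Icc a b) :
    ∃ x ∈ Set.Icc a b, Tendsto g U (𝓝 x) := by
  obtain ⟨x, hx, h1⟩ := isCompact_Icc.ultrafilter_le_nhds (U.map g) (by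
    rw [le_principal_iff]
    exact Filter.univ_mem' (f := (U : Filter I)) h)
  exact ⟨x, hx, h1⟩

/-- the limit of a bounded family of real numbers -/
noncomputable def ul (g : I → ℝ) : ℝ := limUnder (U : Filter I) g

theorem tendsto_ul {g : I → ℝ} {a b : ℝ} (h : ∀ i, g i ∈ Set.Icc a b) :
    Tendsto g U (𝓝 (ul U g)) := by
  obtain ⟨x, _, h1⟩ := exists_ulim U h
  exact tendsto_nhds_limUnder ⟨x, h1⟩

end ulim

/-! ## The ultrapower -/

/-- families of points of `M` -/
@[nolint unusedArguments]
def PM (L : Sig) {I : Type} (_ : Ultrafilter I) (M : Type) [MetricSpace M] [Str L M] : Type :=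
  I → M

variable {L : Sig} {I : Type} {U : Ultrafilter I} {M : Type} [MetricSpace M] [Str L M]

theorem dist_mem (L : Sig) {M : Type} [MetricSpace M] [Str L M] (x y : M) :
    dist x y ∈ Set.Icc (0 : ℝ) 1 :=
  ⟨dist_nonneg, Str.diam (L := L) x y⟩

noncomputable instance : PseudoMetricSpace (PM L U M) where
  dist x y := ul U fun i => dist (x i) (y i)
  dist_self x := by
    have h := tendsto_ul U (g := fun i => dist (x i) (x i)) fun i => dist_mem L (x i) (x i)
    simp only [dist_self] at h ⊢
    exact tendsto_nhds_unique h tendsto_const_nhds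
  dist_comm x y := by
    simp only [dist_comm]
  dist_triangle x y z := by
    have h1 := tendsto_ul U (g := fun i => dist (x i) (z i)) fun i => dist_mem L (x i) (z i)
    have h2 := tendsto_ul U (g := fun i => dist (x i) (y i)) fun i => dist_mem L (x i) (y i)
    have h3 := tendsto_ul U (g := fun i => dist (y i) (z i)) fun i => dist_mem L (y i) (z i)
    exact le_of_tendsto_of_tendsto' h1 (h2.add h3) fun i => dist_triangle _ _ _

theorem tendsto_dist' (x y : PM L U M) :
    Tendsto (fun i => dist (x i) (y i)) U (𝓝 (dist x y)) :=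
  tendsto_ul U fun i => dist_mem L (x i) (y i)

/-- the ultrapower -/
abbrev UN (L : Sig) {I : Type} (U : Ultrafilter I) (M : Type) [MetricSpace M] [Str L M] : Type :=
  SeparationQuotient (PM L U M)

/-- the class of a family -/
noncomputable def cls (x : I → M) : UN L U M := SeparationQuotient.mk (X := PM L U M) x

/-- a representative -/
noncomputable def rep (v : UN L U M) : I → M :=
  Function.surjInv (SeparationQuotient.surjective_mk (X := PM L U M)) v

theorem cls_rep (v : UN L U M) : cls (rep v) = v :=
  Function.surjInv_eq (SeparationQuotient.surjective_mk (X := PM L U M)) v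

theorem tendsto_cls (x y : I → M) :
    Tendsto (fun i => dist (x i) (y i)) U (𝓝 (dist (cls x : UN L U M) (cls y))) :=
  tendsto_dist' (L := L) (U := U) x y

theorem cls_eq {x y : I → M} (h : ∀ ε : ℝ, 0 < ε → ∀ᶠ i in (U : Filter I), dist (x i) (y i) ≤ ε) :
    (cls x : UN L U M) = cls y := by
  refine dist_le_zero.1 (le_of_forall_pos_le_add fun ε hε => ?_)
  rw [zero_add]
  exact le_of_tendsto (tendsto_cls x y) (h ε hε)

theorem ev_dist {n : ℕ} {x y : Fin n → I → M} {r : ℝ} (hr : 0 < r)
    (h : ∀ k, dist (cls (x k) : UN L U M) (cls (y k)) < r) :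
    ∀ᶠ i in (U : Filter I), dist (fun k => x k i) (fun k => y k i) < r := by
  have h1 : ∀ᶠ i in (U : Filter I), ∀ k, dist (x k i) (y k i) < r :=
    Filter.eventually_all.2 fun k => (tendsto_cls (x k) (y k)).eventually_lt_const (h k)
  exact h1.mono fun i hi => (dist_pi_lt_iff hr).2 hi

theorem fn_cls {n : ℕ} (F : L.Fn n) {x y : Fin n → I → M}
    (h : ∀ k, (cls (x k) : UN L U M) = cls (y k)) :
    (cls (fun i => Str.fn F fun k => x k i) : UN L U M) = cls fun i => Str.fn F fun k => y k i := by
  refine cls_eq fun ε hε => ?_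
  have h1 := ev_dist (L := L) (U := U) (x := x) (y := y) (L.mf_pos F ε hε)
    fun k => by rw [h k, dist_self]; exact L.mf_pos F ε hε
  exact h1.mono fun i hi => Str.fn_unif F ε hε _ _ hi

theorem rl_lim {n : ℕ} (R : L.Rl n) (x : Fin n → I → M) :
    Tendsto (fun i => Str.rl R fun k => x k i) U (𝓝 (ul U fun i => Str.rl R fun k => x k i)) :=
  tendsto_ul U fun i => Str.rl_mem R _

theorem rl_cls {n : ℕ} (R : L.Rl n) {x y : Fin n → I → M} {ε : ℝ} (hε : 0 < ε)
    (h : ∀ k, dist (cls (x k) : UN L U M) (cls (y k)) < L.mr R ε) :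
    |(ul U fun i => Str.rl R fun k => x k i) - (ul U fun i => Str.rl R fun k => y k i)| ≤ ε := by
  have h1 := ev_dist (L := L) (U := U) (x := x) (y := y) (L.mr_pos R ε hε) h
  exact le_of_tendsto (((rl_lim R x).sub (rl_lim R y)).abs)
    (h1.mono fun i hi => Str.rl_unif R ε hε _ _ hi)

instance : CompleteSpace (PM L U M) := by
  have hcM : CompleteSpace M := Str.complete (L := L)
  refine Metric.complete_of_convergent_controlled_sequences (fun n => (1 / 2 : ℝ) ^ n)
    (fun n => by positivity) ?_
  intro u hu
  classical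
  -- the good indices
  let S : ℕ → Set I := fun N => {i | ∀ k < N, dist (u k i) (u (k + 1) i) ≤ (1 / 2 : ℝ) ^ k}
  have hS : ∀ N, ∀ᶠ i in (U : Filter I), i ∈ S N := by
    intro N
    have h1 : ∀ᶠ i in (U : Filter I), ∀ k ∈ Finset.range N,
        dist (u k i) (u (k + 1) i) ≤ (1 / 2 : ℝ) ^ k := by
      rw [Filter.eventually_all_finset]
      intro k _
      exact ((tendsto_dist' (u k) (u (k + 1))).eventually_lt_const
        (hu k k (k + 1) le_rfl (Nat.le_succ k))).mono fun i hi => hi.le
    exact h1.mono fun i hi k hk => hi k (Finset.mem_range.2 hk)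
  let w : ℕ → I → M := fun k => Nat.rec (u 0) (fun k wk i => if i ∈ S (k + 1) then u (k + 1) i
    else wk i) k
  have hw0 : w 0 = u 0 := rfl
  have hws : ∀ k i, w (k + 1) i = if i ∈ S (k + 1) then u (k + 1) i else w k i := fun k i => rfl
  have hwS : ∀ k i, i ∈ S k → w k i = u k i := by
    intro k i hi
    cases k with
    | zero => rfl
    | succ k => rw [hws, if_pos hi]
  have hwd : ∀ i k, dist (w k i) (w (k + 1) i) ≤ 2 / 2 / 2 ^ k := by
    intro i k
    rw [hws]
    split_ifs with h
    · rw [hwS k i fun j hj => h j (by omega)]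
      refine (h k (Nat.lt_succ_self k)).trans (le_of_eq ?_)
      rw [one_div, inv_pow]; norm_num
    · rw [dist_self]; positivity
  have hlim : ∀ i, ∃ x, Tendsto (fun k => w k i) atTop (𝓝 x) := fun i =>
    cauchySeq_tendsto_of_complete (cauchySeq_of_le_geometric_two (hwd i))
  choose x hx using hlim
  refine ⟨(show PM L U M from x), ?_⟩
  rw [tendsto_iff_dist_tendsto_zero]
  have hb : ∀ k, dist (u k) (show PM L U M from x) ≤ 2 / 2 ^ k := by
    intro k
    refine le_of_tendsto (tendsto_dist' (u k) (show PM L U M from x)) ((hS k).mono fun i hi => ?_)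
    have h1 := dist_le_of_le_geometric_two_of_tendsto (hwd i) (hx i) k
    rw [hwS k i hi] at h1
    exact h1
  refine squeeze_zero (fun _ => dist_nonneg) hb ?_
  have h2 : Tendsto (fun k : ℕ => 2 * (1 / 2 : ℝ) ^ k) atTop (𝓝 (2 * 0)) :=
    (tendsto_pow_atTop_nhds_zero_of_lt_one (by norm_num) (by norm_num)).const_mul 2
  rw [mul_zero] at h2
  refine h2.congr fun k => ?_
  rw [one_div, inv_pow]; rfl

noncomputable instance instStrUN : Str L (UN L U M) where
  fn F v := cls fun i => Str.fn F fun k => rep (v k) i
  rl R v := ul U fun i => Str.rl R fun k => rep (v k) i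
  ne := ⟨cls fun _ => (Str.ne (L := L) (M := M)).some⟩
  complete := inferInstance
  diam x y := by
    rw [← cls_rep x, ← cls_rep y]
    exact le_of_tendsto' (tendsto_cls _ _) fun i => Str.diam (L := L) _ _
  rl_mem R v := by
    obtain ⟨x, hx, h⟩ := exists_ulim U (g := fun i => Str.rl R fun k => rep (v k) i)
      (fun i => Str.rl_mem R _)
    rw [tendsto_nhds_unique (rl_lim R fun k => rep (v k)) h]
    exact hx
  fn_unif F ε hε v w h := by
    have h1 := ev_dist (L := L) (U := U) (x := fun k => rep (v k)) (y := fun k => rep (w k))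
      (L.mf_pos F ε hε) fun k => by
        rw [cls_rep, cls_rep]; exact lt_of_le_of_lt (dist_le_pi_dist v w k) h
    exact le_of_tendsto (tendsto_cls _ _) (h1.mono fun i hi => Str.fn_unif F ε hε _ _ hi)
  rl_unif R ε hε v w h := by
    refine rl_cls (L := L) (U := U) R hε fun k => ?_
    rw [cls_rep, cls_rep]; exact lt_of_le_of_lt (dist_le_pi_dist v w k) h

theorem fn_eq {n : ℕ} (F : L.Fn n) (x : Fin n → I → M) :
    Str.fn F (fun k => (cls (x k) : UN L U M)) = cls fun i => Str.fn F fun k => x k i :=
  fn_cls F fun _ => cls_rep _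

theorem rl_tendsto {n : ℕ} (R : L.Rl n) (x : Fin n → I → M) :
    Tendsto (fun i => Str.rl R fun k => x k i) U
      (𝓝 (Str.rl R (fun k => (cls (x k) : UN L U M)))) := by
  have h : Str.rl R (fun k => (cls (x k) : UN L U M)) = ul U fun i => Str.rl R fun k => x k i := by
    refine sub_eq_zero.1 (abs_nonpos_iff.1 (le_of_forall_pos_le_add fun ε hε => ?_))
    rw [zero_add]
    refine rl_cls (L := L) (U := U) R hε fun k => ?_
    rw [cls_rep, dist_self]
    exact L.mr_pos R ε hε
  rw [h]
  exact rl_lim R x

/-! ## The theorem of Łoś -/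

theorem tm_val {C : Type} {n : ℕ} (c : C → I → M) (t : Tm L C n) (v : Fin n → I → M) :
    t.val (fun a => (cls (c a) : UN L U M)) (fun k => cls (v k)) =
      cls fun i => t.val (fun a => c a i) fun k => v k i := by
  induction t with
  | var i => rfl
  | cst a => rfl
  | app F ts ih =>
    simp only [Tm.val]
    rw [← fn_eq]
    exact congrArg _ (funext fun j => ih j)

theorem fm_mem {L : Sig} {C : Type} {M : Type} [MetricSpace M] [Str L M] (c : C → M) {n : ℕ}
    (φ : Fm L C n) : ∀ v : Fin n → M, φ.val c v ∈ Set.Icc (0 : ℝ) 1 := by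
  have hne : Nonempty M := Str.ne (L := L)
  induction φ with
  | rel R ts => intro v; exact Str.rl_mem R _
  | dst s t => intro v; exact dist_mem L _ _
  | con u φs _ => intro v; exact u.mem _
  | sup φ ih =>
    intro v
    have hb : BddAbove (Set.range fun x : M => φ.val c (Fin.snoc (α := fun _ => M) v x)) :=
      ⟨1, by rintro _ ⟨x, rfl⟩; exact (ih _).2⟩
    exact ⟨(ih (Fin.snoc (α := fun _ => M) v hne.some)).1.trans (le_ciSup hb hne.some),
      ciSup_le fun x => (ih _).2⟩
  | inf φ ih =>
    intro v
    have hb : BddBelow (Set.range fun x : M => φ.val c (Fin.snoc (α := fun _ => M) v x)) :=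
      ⟨0, by rintro _ ⟨x, rfl⟩; exact (ih _).1⟩
    exact ⟨le_ciInf fun x => (ih _).1,
      (ciInf_le hb hne.some).trans (ih (Fin.snoc (α := fun _ => M) v hne.some)).2⟩

theorem snoc_cls {n : ℕ} (v : Fin n → I → M) (y : I → M) :
    Fin.snoc (α := fun _ => UN L U M) (fun k => cls (v k)) (cls y) =
      fun k => cls (Fin.snoc (α := fun _ => I → M) v y k) := by
  funext k
  refine Fin.lastCases ?_ (fun k => ?_) k
  · simp
  · simp

theorem snoc_ap {n : ℕ} (v : Fin n → I → M) (y : I → M) (i : I) :
    (fun k => Fin.snoc (α := fun _ => I → M) v y k i) =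
      Fin.snoc (α := fun _ => M) (fun k => v k i) (y i) := by
  funext k
  refine Fin.lastCases ?_ (fun k => ?_) k
  · simp
  · simp

theorem los {C : Type} {n : ℕ} (c : C → I → M) (φ : Fm L C n) : ∀ v : Fin n → I → M,
    Tendsto (fun i => φ.val (fun a => c a i) fun k => v k i) U
      (𝓝 (φ.val (fun a => (cls (c a) : UN L U M)) fun k => cls (v k))) := by
  have hne : Nonempty M := Str.ne (L := L)
  have hneN : Nonempty (UN L U M) := Str.ne (L := L)
  induction φ with
  | rel R ts =>
    intro v
    simp only [Fm.val, tm_val]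
    exact rl_tendsto R _
  | dst s t =>
    intro v
    simp only [Fm.val, tm_val]
    exact tendsto_cls _ _
  | con u φs ih =>
    intro v
    simp only [Fm.val]
    exact (u.cont.tendsto _).comp (tendsto_pi_nhds.2 fun j => ih j v)
  | @sup n φ ih =>
    intro v
    simp only [Fm.val]
    have key : ∀ y : I → M, Tendsto (fun i => φ.val (fun a => c a i)
        (Fin.snoc (α := fun _ => M) (fun k => v k i) (y i))) U
        (𝓝 (φ.val (fun a => (cls (c a) : UN L U M))
          (Fin.snoc (α := fun _ => UN L U M) (fun k => cls (v k)) (cls y)))) := by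
      intro y
      have h := ih (Fin.snoc (α := fun _ => I → M) v y)
      rw [snoc_cls]
      simpa only [snoc_ap] using h
    have hb : ∀ i, BddAbove (Set.range fun x : M => φ.val (fun a => c a i)
        (Fin.snoc (α := fun _ => M) (fun k => v k i) x)) := fun i =>
      ⟨1, by rintro _ ⟨x, rfl⟩; exact (fm_mem _ φ _).2⟩
    have hbN : BddAbove (Set.range fun x : UN L U M => φ.val (fun a => (cls (c a) : UN L U M))
        (Fin.snoc (α := fun _ => UN L U M) (fun k => cls (v k)) x)) :=
      ⟨1, by rintro _ ⟨x, rfl⟩; exact (fm_mem _ φ _).2⟩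
    obtain ⟨s, -, hs⟩ := exists_ulim U (g := fun i => ⨆ x : M, φ.val (fun a => c a i)
        (Fin.snoc (α := fun _ => M) (fun k => v k i) x))
        (fun i => fm_mem (fun a => c a i) (Fm.sup φ) fun k => v k i)
    have e : (⨆ x : UN L U M, φ.val (fun a => (cls (c a) : UN L U M))
        (Fin.snoc (α := fun _ => UN L U M) (fun k => cls (v k)) x)) = s := by
      apply le_antisymm
      · refine ciSup_le fun x => ?_
        rw [← cls_rep x]
        exact le_of_tendsto_of_tendsto' (key (rep x)) hs fun i => le_ciSup (hb i) _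
      · refine le_of_forall_pos_le_add fun ε hε => ?_
        have h1 : ∀ i, ∃ y : M, (⨆ x : M, φ.val (fun a => c a i)
            (Fin.snoc (α := fun _ => M) (fun k => v k i) x)) ≤ φ.val (fun a => c a i)
            (Fin.snoc (α := fun _ => M) (fun k => v k i) y) + ε := by
          intro i
          obtain ⟨y, hy⟩ := exists_lt_of_lt_ciSup (sub_lt_self (⨆ x : M, φ.val (fun a => c a i)
            (Fin.snoc (α := fun _ => M) (fun k => v k i) x)) hε)
          exact ⟨y, by linarith⟩
        choose y hy using h1
        refine (le_of_tendsto_of_tendsto' hs ((key y).add_const ε) hy).trans ?_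
        exact add_le_add (le_ciSup hbN (cls y)) le_rfl
    rw [e]
    exact hs
  | @inf n φ ih =>
    intro v
    simp only [Fm.val]
    have key : ∀ y : I → M, Tendsto (fun i => φ.val (fun a => c a i)
        (Fin.snoc (α := fun _ => M) (fun k => v k i) (y i))) U
        (𝓝 (φ.val (fun a => (cls (c a) : UN L U M))
          (Fin.snoc (α := fun _ => UN L U M) (fun k => cls (v k)) (cls y)))) := by
      intro y
      have h := ih (Fin.snoc (α := fun _ => I → M) v y)
      rw [snoc_cls]
      simpa only [snoc_ap] using h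
    have hb : ∀ i, BddBelow (Set.range fun x : M => φ.val (fun a => c a i)
        (Fin.snoc (α := fun _ => M) (fun k => v k i) x)) := fun i =>
      ⟨0, by rintro _ ⟨x, rfl⟩; exact (fm_mem _ φ _).1⟩
    have hbN : BddBelow (Set.range fun x : UN L U M => φ.val (fun a => (cls (c a) : UN L U M))
        (Fin.snoc (α := fun _ => UN L U M) (fun k => cls (v k)) x)) :=
      ⟨0, by rintro _ ⟨x, rfl⟩; exact (fm_mem _ φ _).1⟩
    obtain ⟨s, -, hs⟩ := exists_ulim U (g := fun i => ⨅ x : M, φ.val (fun a => c a i)
        (Fin.snoc (α := fun _ => M) (fun k => v k i) x))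
        (fun i => fm_mem (fun a => c a i) (Fm.inf φ) fun k => v k i)
    have e : (⨅ x : UN L U M, φ.val (fun a => (cls (c a) : UN L U M))
        (Fin.snoc (α := fun _ => UN L U M) (fun k => cls (v k)) x)) = s := by
      apply le_antisymm
      · refine le_of_forall_pos_le_add fun ε hε => ?_
        have h1 : ∀ i, ∃ y : M, φ.val (fun a => c a i)
            (Fin.snoc (α := fun _ => M) (fun k => v k i) y) ≤ (⨅ x : M, φ.val (fun a => c a i)
            (Fin.snoc (α := fun _ => M) (fun k => v k i) x)) + ε := by
          intro i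
          obtain ⟨y, hy⟩ := exists_lt_of_ciInf_lt (lt_add_of_pos_right (⨅ x : M,
            φ.val (fun a => c a i) (Fin.snoc (α := fun _ => M) (fun k => v k i) x)) hε)
          exact ⟨y, hy.le⟩
        choose y hy using h1
        exact (ciInf_le hbN (cls y)).trans
          (le_of_tendsto_of_tendsto' (key y) (hs.add_const ε) hy)
      · refine le_ciInf fun x => ?_
        rw [← cls_rep x]
        exact le_of_tendsto_of_tendsto' hs (key (rep x)) fun i => ciInf_le (hb i) _
    rw [e]
    exact hs

/-- Piece `UP`. -/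
theorem t_UP : S_UP := by
  intro L M _ _ A n z hz
  have hnb : (comap (fun x : Fin n → M => ev L A x) (𝓝 z)).NeBot := by
    rw [comap_neBot_iff]
    intro t ht
    obtain ⟨y, hy, x, rfl⟩ := mem_closure_iff_nhds.1 hz t ht
    exact ⟨x, hy⟩
  let U : Ultrafilter (Fin n → M) := Ultrafilter.of (comap (fun x : Fin n → M => ev L A x) (𝓝 z))
  have hU : Tendsto (fun x : Fin n → M => ev L A x) U (𝓝 z) :=
    tendsto_comap.mono_left (Ultrafilter.of_le _)
  refine ⟨UN L U M, inferInstance, inferInstance, fun m => cls fun _ => m, ?_,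
    fun k => cls fun x => x k, ?_⟩
  · intro k φ v
    have h := los (L := L) (U := U) (fun (m : M) (_ : Fin n → M) => m) φ fun i _ => v i
    exact tendsto_nhds_unique h tendsto_const_nhds
  · funext φ
    have h := los (L := L) (U := U) (fun (a : A) (_ : Fin n → M) => (a : M)) φ fun k x => x k
    exact tendsto_nhds_unique h (tendsto_pi_nhds.1 hU φ)

end Run7.h255.CL
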